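import Mathlib

set_option autoImplicit false

/-!
The Fock inner product on polynomials over the complex numbers, creation and annihilation
operators attached to vectors, and Wick's formula for permanents.
-/

namespace Pool.Agent.H709R3

open MvPolynomial ComplexConjugate

section perm

variable {R : Type*} [CommRing R]

/-- expansion of a permanent along the first column. -/
theorem permanent_succ_column_zero {n : ℕ} (A : Matrix (Fin (n + 1)) (Fin (n + 1)) R) :
    A.permanent = ∑ i : Fin (n + 1), A i 0 * (A.submatrix i.succAbove Fin.succ).permanent := by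
  unfold Matrix.permanent
  rw [Finset.univ_perm_fin_succ, ← Finset.univ_product_univ]
  simp only [Finset.sum_map, Equiv.toEmbedding_apply, Finset.sum_product, Matrix.submatrix,
    Matrix.of_apply]
  refine Finset.sum_congr rfl fun i _ => Fin.cases ?_ (fun i => ?_) i
  · simp only [Fin.prod_univ_succ, Finset.mul_sum,
      Equiv.Perm.decomposeFin_symm_apply_zero, Equiv.swap_self, Equiv.refl_apply,
      Equiv.Perm.decomposeFin_symm_apply_succ, Fin.succAbove_zero]
  · rw [Finset.mul_sum]
    have hbij := (Group.mulLeft_bijective (i.cycleRange)).sum_comp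
      (fun τ : Equiv.Perm (Fin n) => A i.succ 0 * ∏ j, A (i.succ.succAbove (τ j)) j.succ)
    rw [← hbij]
    refine Finset.sum_congr rfl fun σ _ => ?_
    simp only [Fin.prod_univ_succ, Equiv.Perm.coe_mul, Function.comp_apply,
      Fin.succAbove_cycleRange, Equiv.Perm.decomposeFin_symm_apply_zero,
      Equiv.Perm.decomposeFin_symm_apply_succ]

end perm

variable {ι : Type*} [Fintype ι] [DecidableEq ι]
set_option linter.unusedSectionVars false

/-- the weight of a monomial. -/
noncomputable def fac (α : ι →₀ ℕ) : ℂ := ∏ i, ((α i).factorial : ℂ)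

/-- the Fock inner product. -/
noncomputable def ip (p q : MvPolynomial ι ℂ) : ℂ :=
  ∑ α ∈ p.support, fac α * (conj (coeff α p) * coeff α q)

lemma ip_eq_sum {p q : MvPolynomial ι ℂ} {s : Finset (ι →₀ ℕ)} (h : p.support ⊆ s) :
    ip p q = ∑ α ∈ s, fac α * (conj (coeff α p) * coeff α q) := by
  unfold ip
  refine Finset.sum_subset h fun α _ hα => ?_
  rw [MvPolynomial.notMem_support_iff] at hα
  simp [hα]

lemma ip_add_right (p q q' : MvPolynomial ι ℂ) : ip p (q + q') = ip p q + ip p q' := by
  unfold ip
  rw [← Finset.sum_add_distrib]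
  refine Finset.sum_congr rfl fun α _ => ?_
  rw [coeff_add]; ring

lemma ip_smul_right (c : ℂ) (p q : MvPolynomial ι ℂ) : ip p (c • q) = c * ip p q := by
  unfold ip
  rw [Finset.mul_sum]
  refine Finset.sum_congr rfl fun α _ => ?_
  rw [coeff_smul, smul_eq_mul]; ring

lemma conj_fac (α : ι →₀ ℕ) : conj (fac α) = fac α := by
  simp [fac, map_prod]

lemma ip_conj (p q : MvPolynomial ι ℂ) : conj (ip p q) = ip q p := by
  classical
  rw [ip_eq_sum (Finset.subset_union_left (s₂ := q.support)),
    ip_eq_sum (p := q) (Finset.subset_union_right (s₁ := p.support)), map_sum]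
  refine Finset.sum_congr rfl fun α _ => ?_
  rw [map_mul, map_mul, conj_fac, Complex.conj_conj]; ring

lemma ip_add_left (p p' q : MvPolynomial ι ℂ) : ip (p + p') q = ip p q + ip p' q := by
  rw [← ip_conj, ip_add_right, map_add, ip_conj, ip_conj]

lemma ip_smul_left (c : ℂ) (p q : MvPolynomial ι ℂ) : ip (c • p) q = conj c * ip p q := by
  rw [← ip_conj, ip_smul_right, map_mul, ip_conj]

lemma ip_zero_right (p : MvPolynomial ι ℂ) : ip p 0 = 0 := by simp [ip]
lemma ip_zero_left (p : MvPolynomial ι ℂ) : ip 0 p = 0 := by simp [ip]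

lemma ip_neg_right (p q : MvPolynomial ι ℂ) : ip p (-q) = - ip p q := by
  rw [← neg_one_smul ℂ q, ip_smul_right]; ring

lemma ip_neg_left (p q : MvPolynomial ι ℂ) : ip (-p) q = - ip p q := by
  rw [← neg_one_smul ℂ p, ip_smul_left]; simp

lemma ip_sub_right (p q q' : MvPolynomial ι ℂ) : ip p (q - q') = ip p q - ip p q' := by
  rw [sub_eq_add_neg, ip_add_right, ip_neg_right]; ring

lemma ip_sub_left (p p' q : MvPolynomial ι ℂ) : ip (p - p') q = ip p q - ip p' q := by
  rw [sub_eq_add_neg, ip_add_left, ip_neg_left]; ring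

lemma ip_sum_right {κ : Type*} (s : Finset κ) (p : MvPolynomial ι ℂ) (f : κ → MvPolynomial ι ℂ) :
    ip p (∑ k ∈ s, f k) = ∑ k ∈ s, ip p (f k) := by
  classical
  induction s using Finset.induction_on with
  | empty => simp [ip_zero_right]
  | insert a s ha ih => rw [Finset.sum_insert ha, Finset.sum_insert ha, ip_add_right, ih]

lemma ip_sum_left {κ : Type*} (s : Finset κ) (p : MvPolynomial ι ℂ) (f : κ → MvPolynomial ι ℂ) :
    ip (∑ k ∈ s, f k) p = ∑ k ∈ s, ip (f k) p := by
  classical
  induction s using Finset.induction_on with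
  | empty => simp [ip_zero_left]
  | insert a s ha ih => rw [Finset.sum_insert ha, Finset.sum_insert ha, ip_add_left, ih]

/-- the squared norm. -/
noncomputable def nrm (p : MvPolynomial ι ℂ) : ℝ := (ip p p).re

lemma ip_self (p : MvPolynomial ι ℂ) : ip p p = (nrm p : ℂ) := by
  apply Complex.ext
  · rfl
  · have := congrArg Complex.im (ip_conj p p)
    simp only [Complex.conj_im] at this
    simp only [Complex.ofReal_im]
    linarith

lemma nrm_nonneg (p : MvPolynomial ι ℂ) : 0 ≤ nrm p := by
  unfold nrm ip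
  rw [Complex.re_sum]
  refine Finset.sum_nonneg fun α _ => ?_
  have h1 : fac α = ((∏ i, ((α i).factorial : ℝ) : ℝ) : ℂ) := by
    simp [fac]
  have h2 : conj (coeff α p) * coeff α p = ((Complex.normSq (coeff α p) : ℝ) : ℂ) :=
    (Complex.normSq_eq_conj_mul_self).symm
  rw [h1, h2, ← Complex.ofReal_mul, Complex.ofReal_re]
  refine mul_nonneg (Finset.prod_nonneg fun i _ => by positivity) (Complex.normSq_nonneg _)

lemma nrm_add (p q : MvPolynomial ι ℂ) : nrm (p + q) = nrm p + nrm q + 2 * (ip p q).re := by
  unfold nrm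
  rw [ip_add_left, ip_add_right, ip_add_right]
  simp only [Complex.add_re]
  have : (ip q p).re = (ip p q).re := by rw [← ip_conj p q, Complex.conj_re]
  rw [this]; ring

lemma nrm_smul (c : ℂ) (p : MvPolynomial ι ℂ) : nrm (c • p) = Complex.normSq c * nrm p := by
  have h : ip (c • p) (c • p) = ((Complex.normSq c * nrm p : ℝ) : ℂ) := by
    rw [ip_smul_left, ip_smul_right, ip_self, ← mul_assoc, ← Complex.normSq_eq_conj_mul_self]
    push_cast; ring
  unfold nrm
  rw [h, Complex.ofReal_re]
  rfl

lemma nrm_sub (p q : MvPolynomial ι ℂ) : nrm (p - q) = nrm p + nrm q - 2 * (ip p q).re := by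
  rw [sub_eq_add_neg, nrm_add, ip_neg_right]
  have : nrm (-q) = nrm q := by unfold nrm; rw [ip_neg_left, ip_neg_right]; ring_nf
  rw [this, Complex.neg_re]; ring

/-- Cauchy-Schwarz for the real part. -/
lemma cauchy (p q : MvPolynomial ι ℂ) : (ip p q).re ^ 2 ≤ nrm p * nrm q := by
  have h : ∀ t : ℝ, 0 ≤ nrm q * (t * t) + (2 * (ip p q).re) * t + nrm p := by
    intro t
    have h1 := nrm_nonneg (p + (t : ℂ) • q)
    rw [nrm_add, nrm_smul, ip_smul_right] at h1
    simp only [Complex.normSq_ofReal, Complex.re_ofReal_mul] at h1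
    nlinarith
  have := discrim_le_zero h
  unfold discrim at this
  nlinarith

/-- `X i` is adjoint to `pderiv i`. -/
lemma ip_X_mul (i : ι) (p q : MvPolynomial ι ℂ) : ip (X i * p) q = ip p (pderiv i q) := by
  have key : ∀ (β : ι →₀ ℕ) (c : ℂ), ip (X i * monomial β c) q = ip (monomial β c) (pderiv i q) := by
    intro β c
    have h1 : (X i * monomial β c : MvPolynomial ι ℂ) = monomial (β + Finsupp.single i 1) c := by
      rw [X, monomial_mul, one_mul, add_comm]
    rw [h1]
    rw [ip_eq_sum (s := {β + Finsupp.single i 1}) support_monomial_subset,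
      ip_eq_sum (s := {β}) support_monomial_subset, Finset.sum_singleton, Finset.sum_singleton,
      coeff_monomial, coeff_monomial, if_pos rfl, if_pos rfl, coeff_pderiv]
    have h2 : fac (β + Finsupp.single i 1) = fac β * (β i + 1) := by
      unfold fac
      rw [← Finset.mul_prod_erase Finset.univ
          (fun j => (((β + Finsupp.single i 1 : ι →₀ ℕ) j).factorial : ℂ)) (Finset.mem_univ i),
        ← Finset.mul_prod_erase Finset.univ (fun j => ((β j).factorial : ℂ)) (Finset.mem_univ i)]
      have h3 : ∏ x ∈ Finset.univ.erase i, (((β + Finsupp.single i 1 : ι →₀ ℕ) x).factorial : ℂ)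
          = ∏ x ∈ Finset.univ.erase i, ((β x).factorial : ℂ) := by
        refine Finset.prod_congr rfl fun j hj => ?_
        have : j ≠ i := (Finset.mem_erase.1 hj).1
        simp [Finsupp.single_eq_of_ne this]
      rw [h3]
      simp only [Finsupp.add_apply, Finsupp.single_eq_same, Nat.factorial_succ]
      push_cast; ring
    rw [h2]; ring
  induction p using MvPolynomial.induction_on' with
  | monomial β c => exact key β c
  | add p p' hp hp' => rw [mul_add, ip_add_left, ip_add_left, hp, hp']

/-- the linear form attached to a vector. -/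
noncomputable def ell (u : ι → ℂ) : MvPolynomial ι ℂ := ∑ i, (u i) • X i

/-- the annihilation operator attached to a vector. -/
noncomputable def ann (u : ι → ℂ) : Derivation ℂ (MvPolynomial ι ℂ) (MvPolynomial ι ℂ) :=
  ∑ i, (conj (u i)) • pderiv i

lemma ann_apply (u : ι → ℂ) (p : MvPolynomial ι ℂ) : ann u p = ∑ i, (conj (u i)) • pderiv i p := by
  have h := map_sum (Derivation.coeFnAddMonoidHom (R := ℂ) (A := MvPolynomial ι ℂ)
    (M := MvPolynomial ι ℂ)) (fun i => (conj (u i)) • pderiv (R := ℂ) i) Finset.univ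
  have h2 := congrFun h p
  rw [Finset.sum_apply] at h2
  exact h2

/-- the standard hermitian product on vectors. -/
noncomputable def dot (u v : ι → ℂ) : ℂ := ∑ i, conj (u i) * v i

lemma ip_ell_mul (u : ι → ℂ) (p q : MvPolynomial ι ℂ) : ip (ell u * p) q = ip p (ann u q) := by
  rw [ann_apply, ip_sum_right]
  unfold ell
  rw [Finset.sum_mul, ip_sum_left]
  refine Finset.sum_congr rfl fun i _ => ?_
  rw [smul_mul_assoc, ip_smul_left, ip_smul_right, ip_X_mul]

lemma ip_mul_ell (u : ι → ℂ) (p q : MvPolynomial ι ℂ) : ip p (ell u * q) = ip (ann u p) q := by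
  rw [← ip_conj, ip_ell_mul, ip_conj]

lemma ann_ell (u v : ι → ℂ) : ann u (ell v) = C (dot u v) := by
  rw [ann_apply]
  unfold ell dot
  rw [map_sum]
  refine Finset.sum_congr rfl fun i _ => ?_
  rw [map_sum, Finset.sum_eq_single i]
  · rw [Derivation.map_smul, pderiv_X_self, smul_smul, MvPolynomial.smul_eq_C_mul, mul_one]
  · intro j _ hj
    rw [Derivation.map_smul, pderiv_X_of_ne hj, smul_zero]
  · simp

lemma ann_ell_mul (u v : ι → ℂ) (p : MvPolynomial ι ℂ) :
    ann u (ell v * p) = dot u v • p + ell v * ann u p := by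
  rw [Derivation.leibniz, ann_ell, smul_eq_mul, smul_eq_mul, MvPolynomial.smul_eq_C_mul]
  ring

lemma ann_one (u : ι → ℂ) : ann u (1 : MvPolynomial ι ℂ) = 0 := Derivation.map_one_eq_zero _

lemma dot_conj (u v : ι → ℂ) : conj (dot u v) = dot v u := by
  unfold dot
  rw [map_sum]
  refine Finset.sum_congr rfl fun i _ => ?_
  rw [map_mul, Complex.conj_conj]; ring

lemma ann_prod {n : ℕ} (w : ι → ℂ) (u : Fin (n + 1) → ι → ℂ) :
    ann w (∏ i, ell (u i)) = ∑ i, dot w (u i) • ∏ k, ell (u (i.succAbove k)) := by
  induction n with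
  | zero =>
    simp [ann_ell, MvPolynomial.smul_eq_C_mul]
  | succ n ih =>
    rw [Fin.prod_univ_succ, ann_ell_mul, ih, Finset.mul_sum,
      Fin.sum_univ_succ (f := fun i : Fin (n + 1 + 1) => dot w (u i) • ∏ k, ell (u (i.succAbove k)))]
    congr 1
    refine Finset.sum_congr rfl fun i _ => ?_
    rw [mul_smul_comm, Fin.prod_univ_succ (f := fun k => ell (u (i.succ.succAbove k)))]
    simp only [Fin.succ_succAbove_zero, Fin.succ_succAbove_succ]

/-- Wick's formula. -/
theorem wick {n : ℕ} (u v : Fin n → ι → ℂ) :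
    ip (∏ i, ell (u i)) (∏ i, ell (v i)) =
      (Matrix.of fun i j => dot (u i) (v j)).permanent := by
  induction n with
  | zero =>
    simp only [Finset.univ_eq_empty, Finset.prod_empty]
    rw [Matrix.permanent_isEmpty]
    rw [ip_eq_sum (s := {0}) (by
      rw [← C_1]
      exact support_monomial_subset), Finset.sum_singleton]
    simp [fac]
  | succ n ih =>
    rw [permanent_succ_column_zero]
    rw [Fin.prod_univ_succ (f := fun i => ell (v i)), ip_mul_ell, ann_prod, ip_sum_left]
    refine Finset.sum_congr rfl fun i _ => ?_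
    rw [ip_smul_left, dot_conj, ih]
    rfl

end Pool.Agent.H709R3
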