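import Pool.Agent.H709R3.Fock

set_option autoImplicit false

/-!
The inequality behind Pate's permanent inequality.
-/

namespace Pool.Agent.H709R3

open MvPolynomial ComplexConjugate

variable {ι : Type*} [Fintype ι] [DecidableEq ι]
set_option linter.unusedSectionVars false

lemma ann_comm (u v : ι → ℂ) (p : MvPolynomial ι ℂ) : ann u (ann v p) = ann v (ann u p) := by
  have key : ⁅ann u, ann v⁆ = (0 : Derivation ℂ (MvPolynomial ι ℂ) (MvPolynomial ι ℂ)) := by
    apply MvPolynomial.derivation_ext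
    intro i
    rw [Derivation.commutator_apply]
    have h : ∀ w : ι → ℂ, ann w (X i : MvPolynomial ι ℂ) = C (conj (w i)) := by
      intro w
      rw [ann_apply, Finset.sum_eq_single i]
      · rw [pderiv_X_self, MvPolynomial.smul_eq_C_mul, mul_one]
      · intro j _ hj
        rw [pderiv_X_of_ne hj.symm, smul_zero]
      · simp
    rw [h, h, MvPolynomial.derivation_C, MvPolynomial.derivation_C]
    simp
  have := congrArg (fun D : Derivation ℂ (MvPolynomial ι ℂ) (MvPolynomial ι ℂ) => D p) key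
  simp only [Derivation.commutator_apply, Derivation.zero_apply] at this
  exact sub_eq_zero.1 this

/-- number operator of the plane spanned by the orthonormal vectors `e`, `f`. -/
noncomputable def Nop (e f : ι → ℂ) (p : MvPolynomial ι ℂ) : MvPolynomial ι ℂ :=
  ell e * ann e p + ell f * ann f p

lemma quad_nonneg {a b c : ℝ} (ha : 0 ≤ a) (hc : 0 ≤ c) (h : b ^ 2 ≤ 4 * a * c) (x y : ℝ) :
    0 ≤ a * x ^ 2 + b * (x * y) + c * y ^ 2 := by
  rcases ha.eq_or_lt with rfl | ha
  · have hb : b = 0 := by nlinarith [sq_nonneg b]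
    rw [hb]
    have := mul_nonneg hc (sq_nonneg y)
    linarith
  · have h1 : 0 ≤ 4 * a * (a * x ^ 2 + b * (x * y) + c * y ^ 2) := by
      nlinarith [sq_nonneg (2 * a * x + b * y), mul_nonneg (sub_nonneg.2 h) (sq_nonneg y)]
    by_contra hcon
    push Not at hcon
    nlinarith

/-- the block inequality. -/
theorem block {e f : ι → ℂ} (hee : dot e e = 1) (hff : dot f f = 1) (hef : dot e f = 0)
    (s t : ℝ) (m : ℕ) (G : MvPolynomial ι ℂ) (hG : Nop e f G = (m : ℂ) • G) :
    2 * s * t * (nrm (ell e * G) + nrm (ell f * G)) ≤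
      nrm ((s : ℂ) • (ell e * (ell e * G)) - (t : ℂ) • (ell f * (ell f * G))) := by
  have hfe : dot f e = 0 := by rw [← dot_conj, hef, map_zero]
  -- commutation rules
  have ae : ∀ p : MvPolynomial ι ℂ, ann e (ell e * p) = p + ell e * ann e p := by
    intro p; rw [ann_ell_mul, hee, one_smul]
  have af : ∀ p : MvPolynomial ι ℂ, ann f (ell f * p) = p + ell f * ann f p := by
    intro p; rw [ann_ell_mul, hff, one_smul]
  have aef : ∀ p : MvPolynomial ι ℂ, ann e (ell f * p) = ell f * ann e p := by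
    intro p; rw [ann_ell_mul, hef, zero_smul, zero_add]
  have afe : ∀ p : MvPolynomial ι ℂ, ann f (ell e * p) = ell e * ann f p := by
    intro p; rw [ann_ell_mul, hfe, zero_smul, zero_add]
  set α := nrm (ann e G) with hα
  set β := nrm (ann f G) with hβ
  set n := nrm G with hn
  set ω := nrm (ann e (ann f G)) with hω
  set u := ell e * ann f G with hu
  set v := ell f * ann e G with hv
  have hαn : 0 ≤ α := nrm_nonneg _
  have hβn : 0 ≤ β := nrm_nonneg _
  have hnn : 0 ≤ n := nrm_nonneg _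
  -- (1)
  have h1 : α + β = m * n := by
    have h := congrArg (fun p => ip p G) hG
    simp only [Nop] at h
    rw [ip_add_left, ip_ell_mul, ip_ell_mul, ip_smul_left, ip_self, ip_self, ip_self] at h
    simp only [Complex.conj_natCast] at h
    exact_mod_cast h
  -- (2)
  have h2 : nrm u = ω + β := by
    have h : ip u u = ((ω + β : ℝ) : ℂ) := by
      rw [hu, ip_ell_mul, ae, ip_add_right, ip_mul_ell, ip_self, ip_self]
      push_cast; ring
    rw [ip_self] at h
    exact_mod_cast h
  have h3 : nrm v = ω + α := by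
    have h : ip v v = ((ω + α : ℝ) : ℂ) := by
      rw [hv, ip_ell_mul, af, ip_add_right, ip_mul_ell, ip_self, ann_comm f e, ip_self]
      push_cast; ring
    rw [ip_self] at h
    exact_mod_cast h
  -- (4)
  have hcross : ip (ell e * ann e G) (ell f * ann f G) = (ω : ℂ) := by
    rw [ip_ell_mul, aef, ip_mul_ell, ann_comm f e, ip_self]
  have hcross' : ip (ell f * ann f G) (ell e * ann e G) = (ω : ℂ) := by
    rw [← ip_conj, hcross, Complex.conj_ofReal]
  have h4 : nrm (ell e * ann e G) = m * α - ω := by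
    have h : ip (ell e * ann e G) (Nop e f G) = ((m * α : ℝ) : ℂ) := by
      rw [hG, ip_smul_right, ip_ell_mul, ip_self]
      push_cast; ring
    unfold Nop at h
    rw [ip_add_right, hcross, ip_self] at h
    have h' : nrm (ell e * ann e G) + ω = m * α := by exact_mod_cast h
    linarith
  have h5 : nrm (ell f * ann f G) = m * β - ω := by
    have h : ip (ell f * ann f G) (Nop e f G) = ((m * β : ℝ) : ℂ) := by
      rw [hG, ip_smul_right, ip_ell_mul, ip_self]
      push_cast; ring
    unfold Nop at h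
    rw [ip_add_right, hcross', ip_self] at h
    have h' : ω + nrm (ell f * ann f G) = m * β := by exact_mod_cast h
    linarith
  -- (12)
  have h12a : nrm (ell e * G) = α + n := by
    have h : ip (ell e * G) (ell e * G) = ((α + n : ℝ) : ℂ) := by
      rw [ip_ell_mul, ae, ip_add_right, ip_mul_ell, ip_self, ip_self]
      push_cast; ring
    rw [ip_self] at h
    exact_mod_cast h
  have h12b : nrm (ell f * G) = β + n := by
    have h : ip (ell f * G) (ell f * G) = ((β + n : ℝ) : ℂ) := by
      rw [ip_ell_mul, af, ip_add_right, ip_mul_ell, ip_self, ip_self]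
      push_cast; ring
    rw [ip_self] at h
    exact_mod_cast h
  -- (6)
  have h6 : nrm (ell e * (ell e * G)) = m * α - ω + 3 * α + 2 * n := by
    have h : ip (ell e * (ell e * G)) (ell e * (ell e * G))
        = ((2 * (α + n) + α + (m * α - ω) : ℝ) : ℂ) := by
      rw [ip_ell_mul, ae, ae, mul_add, ip_add_right, ip_add_right, ip_self, h12a,
        ip_mul_ell, ae, ip_add_left, ip_self, h4, ip_mul_ell, ip_self]
      push_cast; ring
    rw [ip_self] at h
    have h' : nrm (ell e * (ell e * G)) = 2 * (α + n) + α + (m * α - ω) := by exact_mod_cast h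
    rw [h']; ring
  have h7 : nrm (ell f * (ell f * G)) = m * β - ω + 3 * β + 2 * n := by
    have h : ip (ell f * (ell f * G)) (ell f * (ell f * G))
        = ((2 * (β + n) + β + (m * β - ω) : ℝ) : ℂ) := by
      rw [ip_ell_mul, af, af, mul_add, ip_add_right, ip_add_right, ip_self, h12b,
        ip_mul_ell, af, ip_add_left, ip_self, h5, ip_mul_ell, ip_self]
      push_cast; ring
    rw [ip_self] at h
    have h' : nrm (ell f * (ell f * G)) = 2 * (β + n) + β + (m * β - ω) := by exact_mod_cast h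
    rw [h']; ring
  -- (8)
  have h8 : ip (ell e * (ell e * G)) (ell f * (ell f * G)) = ip u v := by
    rw [ip_ell_mul, aef, aef, ip_mul_ell, afe, hu, hv]
  set ρ := (ip u v).re with hρ
  -- (9)
  have h9a : nrm (u + v) = 2 * ω + m * n + 2 * ρ := by
    rw [nrm_add, h2, h3, ← h1]; ring
  have h9b : nrm (u - v) = 2 * ω + m * n - 2 * ρ := by
    rw [nrm_sub, h2, h3, ← h1]; ring
  -- (10)
  have h10 : (β - α) ^ 2 ≤ nrm (u + v) * nrm (u - v) := by
    have h := cauchy (u + v) (u - v)
    have e1 : (ip (u + v) (u - v)).re = β - α := by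
      rw [ip_add_left, ip_sub_right, ip_sub_right, ip_self, ip_self, h2, h3]
      simp only [Complex.add_re, Complex.sub_re, Complex.ofReal_re]
      have : (ip v u).re = (ip u v).re := by rw [← ip_conj u v, Complex.conj_re]
      rw [this]; ring
    rw [e1] at h
    exact h
  -- (11)
  have e2 : nrm (ell e * ann e G - ell f * ann f G) = m ^ 2 * n - 4 * ω := by
    rw [nrm_sub, h4, h5, hcross, Complex.ofReal_re]
    have : (m : ℝ) ^ 2 * n = m * (α + β) := by rw [h1]; ring
    rw [this]; ring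
  have hZ : 0 ≤ m ^ 2 * n - 4 * ω := by rw [← e2]; exact nrm_nonneg _
  have h11 : (α - β) ^ 2 ≤ (m ^ 2 * n - 4 * ω) * n := by
    have h := cauchy (ell e * ann e G - ell f * ann f G) G
    have e1 : (ip (ell e * ann e G - ell f * ann f G) G).re = α - β := by
      rw [ip_sub_left, ip_ell_mul, ip_ell_mul, ip_self, ip_self, ← Complex.ofReal_sub,
        Complex.ofReal_re]
    rw [e1, e2] at h
    exact h
  -- expansion of the left hand side
  have hmain : nrm ((s : ℂ) • (ell e * (ell e * G)) - (t : ℂ) • (ell f * (ell f * G)))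
      = s ^ 2 * (m * α - ω + 3 * α + 2 * n) + t ^ 2 * (m * β - ω + 3 * β + 2 * n)
        - 2 * s * t * ρ := by
    rw [nrm_sub, nrm_smul, nrm_smul, h6, h7, ip_smul_left, ip_smul_right, h8,
      Complex.conj_ofReal, Complex.normSq_ofReal, Complex.normSq_ofReal,
      Complex.re_ofReal_mul, Complex.re_ofReal_mul]
    ring
  rw [hmain, h12a, h12b]
  -- the real inequality
  have hXY : 0 ≤ 2 * ω + m * n + 2 * ρ := by rw [← h9a]; exact nrm_nonneg _
  have hXY' : 0 ≤ 2 * ω + m * n - 2 * ρ := by rw [← h9b]; exact nrm_nonneg _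
  rw [h9a, h9b] at h10
  have hm : (0 : ℝ) ≤ m := Nat.cast_nonneg m
  generalize (m : ℝ) = M at *
  -- abbreviations
  set X4 := 2 * ω + M * n + 2 * ρ with hX4
  set Y4 := 2 * ω + M * n - 2 * ρ with hY4
  set Z4 := M ^ 2 * n - 4 * ω with hZ4
  set W2 := α - β with hW2
  have hW2' : W2 ^ 2 ≤ X4 * Y4 := by
    have : W2 ^ 2 = (β - α) ^ 2 := by rw [hW2]; ring
    rw [this]; exact h10
  have key : ((M + 3) * W2 / 2) ^ 2 ≤ 4 * ((Y4 + Z4) / 4) * ((X4 + (4 * M + 8) * n + Z4) / 4) := by
    have e3 : X4 + Y4 + Z4 + (4 * M + 8) * n = (M ^ 2 + 6 * M + 8) * n := by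
      rw [hX4, hY4, hZ4]; ring
    have e4 : 4 * ((Y4 + Z4) / 4) * ((X4 + (4 * M + 8) * n + Z4) / 4)
        = (Z4 * (X4 + Y4 + Z4 + (4 * M + 8) * n) + X4 * Y4 + Y4 * ((4 * M + 8) * n)) / 4 := by ring
    rw [e4, e3]
    have e5 : 0 ≤ Y4 * ((4 * M + 8) * n) := by positivity
    have e6 : (M ^ 2 + 6 * M + 8) * W2 ^ 2 ≤ (M ^ 2 + 6 * M + 8) * (Z4 * n) := by
      apply mul_le_mul_of_nonneg_left h11
      positivity
    have e7 : ((M + 3) * W2 / 2) ^ 2 = ((M ^ 2 + 6 * M + 8) * W2 ^ 2 + W2 ^ 2) / 4 := by ring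
    have e8 : Z4 * ((M ^ 2 + 6 * M + 8) * n) = (M ^ 2 + 6 * M + 8) * (Z4 * n) := by ring
    rw [e7, e8]
    linarith
  have hfin := quad_nonneg (a := (Y4 + Z4) / 4) (b := (M + 3) * W2 / 2)
    (c := (X4 + (4 * M + 8) * n + Z4) / 4) (by positivity) (by positivity) key (s + t) (s - t)
  have hid : (Y4 + Z4) / 4 * (s + t) ^ 2 + (M + 3) * W2 / 2 * ((s + t) * (s - t))
      + (X4 + (4 * M + 8) * n + Z4) / 4 * (s - t) ^ 2
      = (s ^ 2 * (M * α - ω + 3 * α + 2 * n) + t ^ 2 * (M * β - ω + 3 * β + 2 * n)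
        - 2 * s * t * ρ) - 2 * s * t * (α + n + (β + n)) := by
    have hβ' : β = M * n - α := by linarith
    rw [hX4, hY4, hZ4, hW2, hβ']
    ring
  linarith

end Pool.Agent.H709R3
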