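import Pool.Agent.H709R3.Pate

set_option autoImplicit false

/-!
Pate's inequality: from blocks to all polynomials, and to vectors in general position.
-/

namespace Pool.Agent.H709R3

open MvPolynomial ComplexConjugate

variable {ι : Type*} [Fintype ι] [DecidableEq ι]
set_option linter.unusedSectionVars false

lemma Nop_add (e f : ι → ℂ) (p q : MvPolynomial ι ℂ) :
    Nop e f (p + q) = Nop e f p + Nop e f q := by
  unfold Nop; rw [map_add, map_add]; ring

lemma Nop_smul (e f : ι → ℂ) (c : ℂ) (p : MvPolynomial ι ℂ) :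
    Nop e f (c • p) = c • Nop e f p := by
  unfold Nop
  rw [Derivation.map_smul, Derivation.map_smul, mul_smul_comm, mul_smul_comm, smul_add]

lemma Nop_zero (e f : ι → ℂ) : Nop e f (0 : MvPolynomial ι ℂ) = 0 := by
  unfold Nop; rw [map_zero, map_zero]; ring

lemma Nop_sub (e f : ι → ℂ) (p q : MvPolynomial ι ℂ) :
    Nop e f (p - q) = Nop e f p - Nop e f q := by
  unfold Nop; rw [map_sub, map_sub]; ring

lemma ip_Nop (e f : ι → ℂ) (p q : MvPolynomial ι ℂ) : ip (Nop e f p) q = ip p (Nop e f q) := by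
  unfold Nop
  rw [ip_add_left, ip_add_right, ip_ell_mul, ip_ell_mul, ip_mul_ell, ip_mul_ell]

/-- the action of `Nop` on a product with a linear form. -/
lemma Nop_ell_mul (e f w : ι → ℂ) (p : MvPolynomial ι ℂ) :
    Nop e f (ell w * p) = (dot e w • ell e + dot f w • ell f) * p + ell w * Nop e f p := by
  unfold Nop
  rw [ann_ell_mul, ann_ell_mul, MvPolynomial.smul_eq_C_mul, MvPolynomial.smul_eq_C_mul,
    MvPolynomial.smul_eq_C_mul, MvPolynomial.smul_eq_C_mul]
  ring

lemma X_eq_ell (i : ι) : (X i : MvPolynomial ι ℂ) = ell (Pi.single i 1) := by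
  unfold ell
  rw [Finset.sum_eq_single i]
  · simp
  · intro j _ hj
    simp [Pi.single_eq_of_ne hj]
  · simp

section plane

variable {e f : ι → ℂ} (hee : dot e e = 1) (hff : dot f f = 1) (hef : dot e f = 0)
include hee hff hef

lemma Nop_e (p : MvPolynomial ι ℂ) : Nop e f (ell e * p) = ell e * p + ell e * Nop e f p := by
  have hfe : dot f e = 0 := by rw [← dot_conj, hef, map_zero]
  rw [Nop_ell_mul, hee, hfe, one_smul, zero_smul, add_zero]

lemma Nop_f (p : MvPolynomial ι ℂ) : Nop e f (ell f * p) = ell f * p + ell f * Nop e f p := by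
  rw [Nop_ell_mul, hef, hff, one_smul, zero_smul, zero_add]

/-- every polynomial is a sum of eigenvectors of `Nop`. -/
theorem decomp (g : MvPolynomial ι ℂ) :
    ∃ (M : ℕ) (G : ℕ → MvPolynomial ι ℂ), (∀ m, M ≤ m → G m = 0) ∧
      g = ∑ m ∈ Finset.range M, G m ∧ ∀ m, Nop e f (G m) = (m : ℂ) • G m := by
  induction g using MvPolynomial.induction_on with
  | C a =>
    refine ⟨1, fun m => if m = 0 then C a else 0, ?_, ?_, ?_⟩
    · intro m hm
      exact if_neg (by omega)
    · simp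
    · intro m
      by_cases h : m = 0
      · subst h
        simp [Nop]
      · simp [h, Nop_zero]
  | add p q hp hq =>
    obtain ⟨M1, G1, h1, h2, h3⟩ := hp
    obtain ⟨M2, G2, k1, k2, k3⟩ := hq
    refine ⟨M1 + M2, fun m => G1 m + G2 m, ?_, ?_, ?_⟩
    · intro m hm
      show G1 m + G2 m = 0
      rw [h1 m (by omega), k1 m (by omega), add_zero]
    · rw [Finset.sum_add_distrib]
      congr 1
      · rw [h2]
        refine Finset.sum_subset (Finset.range_subset_range.2 (by omega)) fun m _ hm => ?_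
        exact h1 m (by simpa using hm)
      · rw [k2]
        refine Finset.sum_subset (Finset.range_subset_range.2 (by omega)) fun m _ hm => ?_
        exact k1 m (by simpa using hm)
    · intro m
      show Nop e f (G1 m + G2 m) = (m : ℂ) • (G1 m + G2 m)
      rw [Nop_add, h3, k3, smul_add]
  | mul_X p i hp =>
    obtain ⟨M, G, h1, h2, h3⟩ := hp
    set w : ι → ℂ := Pi.single i 1 with hw
    set xP : MvPolynomial ι ℂ := dot e w • ell e + dot f w • ell f with hxP
    set xR : MvPolynomial ι ℂ := ell w - xP with hxR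
    have hP : ∀ q, Nop e f (xP * q) = xP * q + xP * Nop e f q := by
      intro q
      rw [hxP, add_mul, smul_mul_assoc, smul_mul_assoc, Nop_add, Nop_smul, Nop_smul,
        Nop_e hee hff hef, Nop_f hee hff hef, smul_add, smul_add, add_mul, smul_mul_assoc,
        smul_mul_assoc]
      abel
    have hR : ∀ q, Nop e f (xR * q) = xR * Nop e f q := by
      intro q
      rw [hxR, sub_mul, Nop_sub, Nop_ell_mul, ← hxP, hP]
      ring
    refine ⟨M + 1, fun m => xR * G m + (if m = 0 then 0 else xP * G (m - 1)), ?_, ?_, ?_⟩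
    · intro m hm
      have : m ≠ 0 := by omega
      simp only [if_neg this]
      rw [h1 m (by omega), h1 (m - 1) (by omega), mul_zero, mul_zero, add_zero]
    · rw [Finset.sum_add_distrib, Finset.sum_range_succ (fun m => xR * G m), h1 M le_rfl,
        mul_zero, add_zero, Finset.sum_range_succ' (fun m => if m = 0 then 0 else xP * G (m - 1))]
      simp only [Nat.succ_ne_zero, if_false, if_true, Nat.add_sub_cancel, add_zero]
      rw [← Finset.mul_sum, ← Finset.mul_sum, ← h2, X_eq_ell, ← hw, hxR]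
      ring
    · intro m
      show Nop e f (xR * G m + (if m = 0 then 0 else xP * G (m - 1)))
        = (m : ℂ) • (xR * G m + (if m = 0 then 0 else xP * G (m - 1)))
      rw [Nop_add, hR, h3, smul_add, mul_smul_comm]
      congr 1
      rcases Nat.eq_zero_or_pos m with h | h
      · simp [h, Nop_zero]
      · obtain ⟨k, rfl⟩ : ∃ k, m = k + 1 := ⟨m - 1, by omega⟩
        rw [if_neg (Nat.succ_ne_zero k), Nat.add_sub_cancel]
        rw [hP, h3, mul_smul_comm, Nat.cast_add, Nat.cast_one, add_smul, one_smul, add_comm]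

omit hee hff hef in
lemma orth {p q : MvPolynomial ι ℂ} {a b : ℕ} (hp : Nop e f p = (a : ℂ) • p)
    (hq : Nop e f q = (b : ℂ) • q) (hab : a ≠ b) : ip p q = 0 := by
  have h := ip_Nop e f p q
  rw [hp, hq, ip_smul_left, ip_smul_right, Complex.conj_natCast] at h
  have h2 : ((a : ℂ) - b) * ip p q = 0 := by rw [sub_mul, h, sub_self]
  rcases mul_eq_zero.1 h2 with h3 | h3
  · exfalso
    apply hab
    have : (a : ℂ) = b := sub_eq_zero.1 h3
    exact_mod_cast this
  · exact h3

omit hee hff hef in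
lemma nrm_sum {k : ℕ} {F : ℕ → MvPolynomial ι ℂ}
    (hF : ∀ m, Nop e f (F m) = ((m + k : ℕ) : ℂ) • F m) (M : ℕ) :
    nrm (∑ m ∈ Finset.range M, F m) = ∑ m ∈ Finset.range M, nrm (F m) := by
  induction M with
  | zero => simp [nrm, ip_zero_right]
  | succ M ih =>
    have h0 : ip (∑ m ∈ Finset.range M, F m) (F M) = 0 := by
      rw [ip_sum_left]
      refine Finset.sum_eq_zero fun m hm => ?_
      refine orth (hF m) (hF M) ?_
      have := Finset.mem_range.1 hm
      omega
    rw [Finset.sum_range_succ, Finset.sum_range_succ, nrm_add, ih, h0]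
    simp

/-- the inequality for all polynomials. -/
theorem plane_ineq (s t : ℝ) (g : MvPolynomial ι ℂ) :
    2 * s * t * (nrm (ell e * g) + nrm (ell f * g)) ≤
      nrm ((s : ℂ) • (ell e * (ell e * g)) - (t : ℂ) • (ell f * (ell f * g))) := by
  obtain ⟨M, G, -, h2, h3⟩ := decomp hee hff hef g
  have he : ell e * g = ∑ m ∈ Finset.range M, ell e * G m := by rw [h2, Finset.mul_sum]
  have hf : ell f * g = ∑ m ∈ Finset.range M, ell f * G m := by rw [h2, Finset.mul_sum]
  have hq : (s : ℂ) • (ell e * (ell e * g)) - (t : ℂ) • (ell f * (ell f * g)) =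
      ∑ m ∈ Finset.range M,
        ((s : ℂ) • (ell e * (ell e * G m)) - (t : ℂ) • (ell f * (ell f * G m))) := by
    rw [he, hf, Finset.mul_sum, Finset.mul_sum, Finset.smul_sum, Finset.smul_sum,
      Finset.sum_sub_distrib]
  have e1 : ∀ (k : ℕ) (p : MvPolynomial ι ℂ), Nop e f p = (k : ℂ) • p →
      Nop e f (ell e * p) = ((k + 1 : ℕ) : ℂ) • (ell e * p) := by
    intro k p hp
    rw [Nop_e hee hff hef, hp, mul_smul_comm]
    push_cast
    rw [add_smul, one_smul, add_comm]
  have f1 : ∀ (k : ℕ) (p : MvPolynomial ι ℂ), Nop e f p = (k : ℂ) • p →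
      Nop e f (ell f * p) = ((k + 1 : ℕ) : ℂ) • (ell f * p) := by
    intro k p hp
    rw [Nop_f hee hff hef, hp, mul_smul_comm]
    push_cast
    rw [add_smul, one_smul, add_comm]
  have n1 : nrm (∑ m ∈ Finset.range M, ell e * G m) = ∑ m ∈ Finset.range M, nrm (ell e * G m) :=
    nrm_sum (e := e) (f := f) (k := 1) (F := fun m => ell e * G m) (fun m => e1 m _ (h3 m)) M
  have n2 : nrm (∑ m ∈ Finset.range M, ell f * G m) = ∑ m ∈ Finset.range M, nrm (ell f * G m) :=
    nrm_sum (e := e) (f := f) (k := 1) (F := fun m => ell f * G m) (fun m => f1 m _ (h3 m)) M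
  have n3 : nrm (∑ m ∈ Finset.range M,
        ((s : ℂ) • (ell e * (ell e * G m)) - (t : ℂ) • (ell f * (ell f * G m))))
      = ∑ m ∈ Finset.range M,
        nrm ((s : ℂ) • (ell e * (ell e * G m)) - (t : ℂ) • (ell f * (ell f * G m))) := by
    refine nrm_sum (e := e) (f := f) (k := 2)
      (F := fun m => (s : ℂ) • (ell e * (ell e * G m)) - (t : ℂ) • (ell f * (ell f * G m))) ?_ M
    intro m
    show Nop e f ((s : ℂ) • (ell e * (ell e * G m)) - (t : ℂ) • (ell f * (ell f * G m)))
      = ((m + 2 : ℕ) : ℂ) • ((s : ℂ) • (ell e * (ell e * G m)) - (t : ℂ) • (ell f * (ell f * G m)))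
    rw [Nop_sub, Nop_smul, Nop_smul, e1 (m + 1) _ (e1 m _ (h3 m)), f1 (m + 1) _ (f1 m _ (h3 m)),
      smul_sub, smul_comm (s : ℂ), smul_comm (t : ℂ)]
  rw [hq, he, hf, n1, n2, n3, ← Finset.sum_add_distrib, Finset.mul_sum]
  exact Finset.sum_le_sum fun m _ => block hee hff hef s t m (G m) (h3 m)

end plane

lemma ell_add (u v : ι → ℂ) : ell (u + v) = ell u + ell v := by
  unfold ell
  rw [← Finset.sum_add_distrib]
  exact Finset.sum_congr rfl fun i _ => by rw [Pi.add_apply, add_smul]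

lemma ell_smul (c : ℂ) (v : ι → ℂ) : ell (c • v) = c • ell v := by
  unfold ell
  rw [Finset.smul_sum]
  exact Finset.sum_congr rfl fun i _ => by rw [Pi.smul_apply, smul_eq_mul, mul_smul]

lemma ell_sub (u v : ι → ℂ) : ell (u - v) = ell u - ell v := by
  rw [sub_eq_add_neg, ell_add, ← neg_one_smul ℂ v, ell_smul, neg_one_smul]; ring

lemma ell_zero : ell (0 : ι → ℂ) = 0 := by
  unfold ell; simp

lemma dot_add_right (u v w : ι → ℂ) : dot u (v + w) = dot u v + dot u w := by
  unfold dot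
  rw [← Finset.sum_add_distrib]
  exact Finset.sum_congr rfl fun i _ => by rw [Pi.add_apply]; ring

lemma dot_smul_right (c : ℂ) (u v : ι → ℂ) : dot u (c • v) = c * dot u v := by
  unfold dot
  rw [Finset.mul_sum]
  exact Finset.sum_congr rfl fun i _ => by rw [Pi.smul_apply, smul_eq_mul]; ring

lemma dot_add_left (u v w : ι → ℂ) : dot (u + v) w = dot u w + dot v w := by
  rw [← dot_conj, dot_add_right, map_add, dot_conj, dot_conj]

lemma dot_smul_left (c : ℂ) (u v : ι → ℂ) : dot (c • u) v = conj c * dot u v := by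
  rw [← dot_conj, dot_smul_right, map_mul, dot_conj]

lemma dot_sub_right (u v w : ι → ℂ) : dot u (v - w) = dot u v - dot u w := by
  rw [sub_eq_add_neg, dot_add_right, ← neg_one_smul ℂ w, dot_smul_right]; ring

lemma dot_sub_left (u v w : ι → ℂ) : dot (u - v) w = dot u w - dot v w := by
  rw [← dot_conj, dot_sub_right, map_sub, dot_conj, dot_conj]

lemma dot_self (u : ι → ℂ) : dot u u = ((∑ i, Complex.normSq (u i) : ℝ) : ℂ) := by
  unfold dot
  rw [Complex.ofReal_sum]
  exact Finset.sum_congr rfl fun i _ => (Complex.normSq_eq_conj_mul_self).symm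

lemma dot_self_nonneg (u : ι → ℂ) : 0 ≤ (dot u u).re := by
  rw [dot_self, Complex.ofReal_re]
  exact Finset.sum_nonneg fun i _ => Complex.normSq_nonneg _

lemma dot_self_im (u : ι → ℂ) : dot u u = (((dot u u).re : ℝ) : ℂ) := by
  rw [dot_self, Complex.ofReal_re]

lemma eq_zero_of_dot (u : ι → ℂ) (h : (dot u u).re = 0) : u = 0 := by
  rw [dot_self, Complex.ofReal_re, Finset.sum_eq_zero_iff_of_nonneg
    (fun i _ => Complex.normSq_nonneg _)] at h
  ext i
  exact Complex.normSq_eq_zero.1 (h i (Finset.mem_univ i))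

/-- the inequality for two vectors of the same length with real inner product. -/
theorem balanced (b0 b1 : ι → ℂ) (ν r : ℝ) (h0 : dot b0 b0 = (ν : ℂ)) (h1 : dot b1 b1 = (ν : ℂ))
    (h01 : dot b0 b1 = (r : ℂ)) (g : MvPolynomial ι ℂ) :
    ν * (nrm (ell b0 * g) + nrm (ell b1 * g)) - 2 * r * (ip (ell b0 * g) (ell b1 * g)).re
      ≤ 2 * nrm (ell b0 * (ell b1 * g)) := by
  have h10 : dot b1 b0 = (r : ℂ) := by rw [← dot_conj, h01, Complex.conj_ofReal]
  set S := b0 + b1 with hS
  set T := b0 - b1 with hT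
  have hSS : dot S S = ((2 * (ν + r) : ℝ) : ℂ) := by
    rw [hS, dot_add_left, dot_add_right, dot_add_right, h0, h1, h01, h10]; push_cast; ring
  have hTT : dot T T = ((2 * (ν - r) : ℝ) : ℂ) := by
    rw [hT, dot_sub_left, dot_sub_right, dot_sub_right, h0, h1, h01, h10]; push_cast; ring
  have hST : dot S T = 0 := by
    rw [hS, hT, dot_add_left, dot_sub_right, dot_sub_right, h0, h1, h01, h10]; ring
  have hσ : 0 ≤ 2 * (ν + r) := by
    have := dot_self_nonneg S; rwa [hSS, Complex.ofReal_re] at this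
  have hτ : 0 ≤ 2 * (ν - r) := by
    have := dot_self_nonneg T; rwa [hTT, Complex.ofReal_re] at this
  have eS : ell S * g = ell b0 * g + ell b1 * g := by rw [hS, ell_add, add_mul]
  have eT : ell T * g = ell b0 * g - ell b1 * g := by rw [hT, ell_sub, sub_mul]
  have lhs : ν * (nrm (ell b0 * g) + nrm (ell b1 * g)) - 2 * r * (ip (ell b0 * g) (ell b1 * g)).re
      = (2 * (ν - r) * nrm (ell S * g) + 2 * (ν + r) * nrm (ell T * g)) / 4 := by
    rw [eS, eT, nrm_add, nrm_sub]; ring
  have rhs : ell S * (ell S * g) - ell T * (ell T * g) = (4 : ℂ) • (ell b0 * (ell b1 * g)) := by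
    rw [hS, hT, ell_add, ell_sub, MvPolynomial.smul_eq_C_mul, map_ofNat]; ring
  rw [lhs]
  rcases hσ.eq_or_lt with hσ0 | hσ0
  · have hS0 : S = 0 := eq_zero_of_dot S (by rw [hSS, Complex.ofReal_re, ← hσ0])
    have := nrm_nonneg (ell b0 * (ell b1 * g))
    have h0' : nrm (0 : MvPolynomial ι ℂ) = 0 := by simp [nrm, ip_zero_right]
    rw [← hσ0, hS0, ell_zero, zero_mul, zero_mul, h0']
    linarith
  rcases hτ.eq_or_lt with hτ0 | hτ0
  · have hT0 : T = 0 := eq_zero_of_dot T (by rw [hTT, Complex.ofReal_re, ← hτ0])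
    have := nrm_nonneg (ell b0 * (ell b1 * g))
    have h0' : nrm (0 : MvPolynomial ι ℂ) = 0 := by simp [nrm, ip_zero_right]
    rw [← hτ0, hT0, ell_zero, zero_mul, zero_mul, h0']
    linarith
  set σ := 2 * (ν + r) with hσd
  set τ := 2 * (ν - r) with hτd
  set e : ι → ℂ := ((1 / √σ : ℝ) : ℂ) • S with he
  set f : ι → ℂ := ((1 / √τ : ℝ) : ℂ) • T with hf
  have sσ : √σ * √σ = σ := Real.mul_self_sqrt hσ
  have sτ : √τ * √τ = τ := Real.mul_self_sqrt hτ
  have sσ0 : √σ ≠ 0 := (Real.sqrt_pos.2 hσ0).ne'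
  have sτ0 : √τ ≠ 0 := (Real.sqrt_pos.2 hτ0).ne'
  have iσ : (1 / √σ) * (1 / √σ) = 1 / σ := by
    rw [div_mul_div_comm, one_mul, sσ]
  have iτ : (1 / √τ) * (1 / √τ) = 1 / τ := by
    rw [div_mul_div_comm, one_mul, sτ]
  have jσ : (1 / √σ) * ((1 / √σ) * σ) = 1 := by
    rw [← mul_assoc, iσ, one_div, inv_mul_cancel₀ hσ0.ne']
  have jτ : (1 / √τ) * ((1 / √τ) * τ) = 1 := by
    rw [← mul_assoc, iτ, one_div, inv_mul_cancel₀ hτ0.ne']
  have hee : dot e e = 1 := by
    rw [he, dot_smul_left, dot_smul_right, hSS, Complex.conj_ofReal, ← Complex.ofReal_mul,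
      ← Complex.ofReal_mul, jσ, Complex.ofReal_one]
  have hff : dot f f = 1 := by
    rw [hf, dot_smul_left, dot_smul_right, hTT, Complex.conj_ofReal, ← Complex.ofReal_mul,
      ← Complex.ofReal_mul, jτ, Complex.ofReal_one]
  have hef : dot e f = 0 := by
    rw [he, hf, dot_smul_left, dot_smul_right, hST]; ring
  have h := plane_ineq hee hff hef σ τ g
  have e2 : nrm (ell e * g) = (1 / σ) * nrm (ell S * g) := by
    rw [he, ell_smul, smul_mul_assoc, nrm_smul, Complex.normSq_ofReal, iσ]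
  have f2 : nrm (ell f * g) = (1 / τ) * nrm (ell T * g) := by
    rw [hf, ell_smul, smul_mul_assoc, nrm_smul, Complex.normSq_ofReal, iτ]
  have e3 : (σ : ℂ) • (ell e * (ell e * g)) = ell S * (ell S * g) := by
    rw [he, ell_smul, smul_mul_assoc, smul_mul_assoc, mul_smul_comm, smul_smul, smul_smul,
      ← Complex.ofReal_mul, ← Complex.ofReal_mul]
    have : σ * (1 / √σ) * (1 / √σ) = 1 := by rw [mul_assoc, iσ, mul_one_div_cancel hσ0.ne']
    rw [this, Complex.ofReal_one, one_smul]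
  have f3 : (τ : ℂ) • (ell f * (ell f * g)) = ell T * (ell T * g) := by
    rw [hf, ell_smul, smul_mul_assoc, smul_mul_assoc, mul_smul_comm, smul_smul, smul_smul,
      ← Complex.ofReal_mul, ← Complex.ofReal_mul]
    have : τ * (1 / √τ) * (1 / √τ) = 1 := by rw [mul_assoc, iτ, mul_one_div_cancel hτ0.ne']
    rw [this, Complex.ofReal_one, one_smul]
  rw [e2, f2, e3, f3, rhs, nrm_smul] at h
  have h4 : Complex.normSq (4 : ℂ) = 16 := by
    rw [show (4 : ℂ) = ((4 : ℝ) : ℂ) by norm_num, Complex.normSq_ofReal]; norm_num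
  rw [h4] at h
  have h5 : 2 * σ * τ * (1 / σ * nrm (ell S * g) + 1 / τ * nrm (ell T * g))
      = 2 * (τ * nrm (ell S * g) + σ * nrm (ell T * g)) := by
    field_simp
  rw [h5] at h
  linarith

/-- the inequality for two arbitrary vectors. -/
theorem general (b0 b1 : ι → ℂ) (g : MvPolynomial ι ℂ) :
    (dot b0 b0).re * nrm (ell b1 * g) + (dot b1 b1).re * nrm (ell b0 * g)
      - 2 * (dot b0 b1 * ip (ell b1 * g) (ell b0 * g)).re
      ≤ 2 * nrm (ell b0 * (ell b1 * g)) := by
  have hz : nrm (0 : MvPolynomial ι ℂ) = 0 := by simp [nrm, ip_zero_right]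
  by_cases hb0 : b0 = 0
  · subst hb0
    have e0 : dot (0 : ι → ℂ) 0 = 0 := by simp [dot]
    simp [e0, ell_zero, hz, ip_zero_right]
  by_cases hb1 : b1 = 0
  · subst hb1
    have e0 : dot (0 : ι → ℂ) 0 = 0 := by simp [dot]
    simp [e0, ell_zero, hz, ip_zero_left]
  have p0 : 0 < (dot b0 b0).re :=
    lt_of_le_of_ne (dot_self_nonneg b0) fun h => hb0 (eq_zero_of_dot b0 h.symm)
  have p1 : 0 < (dot b1 b1).re :=
    lt_of_le_of_ne (dot_self_nonneg b1) fun h => hb1 (eq_zero_of_dot b1 h.symm)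
  set N0 := √(dot b0 b0).re with hN0
  set N1 := √(dot b1 b1).re with hN1
  have s0 : N0 * N0 = (dot b0 b0).re := Real.mul_self_sqrt p0.le
  have s1 : N1 * N1 = (dot b1 b1).re := Real.mul_self_sqrt p1.le
  have q0 : 0 < N0 := Real.sqrt_pos.2 p0
  have q1 : 0 < N1 := Real.sqrt_pos.2 p1
  set w := dot b0 b1 with hw
  obtain ⟨φ, hφ1, hφ2⟩ : ∃ φ : ℂ, Complex.normSq φ = 1 ∧ w = (‖w‖ : ℂ) * φ := by
    by_cases h : w = 0
    · exact ⟨1, by simp, by simp [h]⟩
    · refine ⟨w / (‖w‖ : ℂ), ?_, ?_⟩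
      · rw [map_div₀, Complex.normSq_ofReal, Complex.normSq_eq_norm_sq]
        have : ‖w‖ ≠ 0 := norm_ne_zero_iff.2 h
        field_simp
      · have : (‖w‖ : ℂ) ≠ 0 := by exact_mod_cast norm_ne_zero_iff.2 h
        field_simp
  have hφc : conj φ * φ = 1 := by
    rw [← Complex.normSq_eq_conj_mul_self, hφ1, Complex.ofReal_one]
  have main := balanced ((φ * (N1 : ℂ)) • b0) ((N0 : ℂ) • b1) (N0 * N0 * (N1 * N1))
    (N0 * N1 * ‖w‖) ?_ ?_ ?_ g
  · rw [ell_smul, ell_smul, smul_mul_assoc, smul_mul_assoc, smul_mul_assoc, mul_smul_comm,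
      smul_smul, nrm_smul, nrm_smul, nrm_smul, ip_smul_left, ip_smul_right] at main
    have n1 : Complex.normSq (φ * (N1 : ℂ)) = N1 * N1 := by
      rw [map_mul, hφ1, Complex.normSq_ofReal, one_mul]
    have n2 : Complex.normSq (N0 : ℂ) = N0 * N0 := Complex.normSq_ofReal _
    have n3 : Complex.normSq (φ * (N1 : ℂ) * (N0 : ℂ)) = N1 * N1 * (N0 * N0) := by
      rw [map_mul, n1, n2]
    rw [n1, n2, n3] at main
    have hre : (w * ip (ell b1 * g) (ell b0 * g)).re
        = ‖w‖ * (conj φ * ip (ell b0 * g) (ell b1 * g)).re := by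
      conv_lhs => rw [hφ2]
      rw [mul_assoc, Complex.re_ofReal_mul, ← ip_conj (ell b0 * g) (ell b1 * g)]
      congr 1
      have : φ * conj (ip (ell b0 * g) (ell b1 * g))
          = conj (conj φ * ip (ell b0 * g) (ell b1 * g)) := by
        rw [map_mul, Complex.conj_conj]
      rw [this, Complex.conj_re]
    have hre2 : (conj (φ * (N1 : ℂ)) * ((N0 : ℂ) * ip (ell b0 * g) (ell b1 * g))).re
        = N1 * N0 * (conj φ * ip (ell b0 * g) (ell b1 * g)).re := by
      have : conj (φ * (N1 : ℂ)) * ((N0 : ℂ) * ip (ell b0 * g) (ell b1 * g))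
          = ((N1 * N0 : ℝ) : ℂ) * (conj φ * ip (ell b0 * g) (ell b1 * g)) := by
        rw [map_mul, Complex.conj_ofReal]; push_cast; ring
      rw [this, Complex.re_ofReal_mul]
    rw [hre2] at main
    rw [hre, ← s0, ← s1]
    have hpos : 0 < N0 * N0 * (N1 * N1) := by positivity
    have : N0 * N0 * (N1 * N1) * (N0 * N0 * nrm (ell b1 * g) + N1 * N1 * nrm (ell b0 * g)
        - 2 * (‖w‖ * (conj φ * ip (ell b0 * g) (ell b1 * g)).re))
        ≤ N0 * N0 * (N1 * N1) * (2 * nrm (ell b0 * (ell b1 * g))) := by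
      nlinarith [main]
    exact le_of_mul_le_mul_left this hpos
  · rw [dot_smul_left, dot_smul_right, dot_self_im b0, ← s0, map_mul, Complex.conj_ofReal]
    have : conj φ * ↑N1 * (φ * ↑N1 * ((N0 * N0 : ℝ) : ℂ))
        = (conj φ * φ) * ((N0 * N0 * (N1 * N1) : ℝ) : ℂ) := by push_cast; ring
    rw [this, hφc, one_mul]
  · rw [dot_smul_left, dot_smul_right, dot_self_im b1, ← s1, Complex.conj_ofReal]
    push_cast; ring
  · rw [dot_smul_left, dot_smul_right, ← hw, hφ2, map_mul, Complex.conj_ofReal]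
    have : conj φ * (N1 : ℂ) * ((N0 : ℂ) * ((‖w‖ : ℂ) * φ))
        = (conj φ * φ) * ((N0 * N1 * ‖w‖ : ℝ) : ℂ) := by push_cast; ring
    have h' : ‖(‖w‖ : ℂ) * φ‖ = ‖w‖ := by rw [← hφ2]
    rw [h', this, hφc, one_mul]

end Pool.Agent.H709R3
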